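import Pool.Agent.Helper12.MA.StD

/-!
Module CRT of project MA: two coinciding servers give a double server.
-/

set_option autoImplicit false

namespace Pool.Agent.Helper32.MA

open Pool.Agent.Helper12.MA
open Pool.Agent.Helper51.AJ (IsMinor Planar Apex ExMinor Con Tch)
open Pool.Agent.Helper12.NK (rst Kc add cnt Pcy IsFace Cof plus)

private lemma isMinor_mono {W V : Type} {H : SimpleGraph W} {G G' : SimpleGraph V}
    (hle : ∀ a b, G.Adj a b → G'.Adj a b) (h : IsMinor H G) : IsMinor H G' := by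
  obtain ⟨φ, h1, h2, h3⟩ := h
  refine ⟨φ, fun w => ?_, h2, fun w w' hw => ?_⟩
  · exact (h1 w).mono fun a b hab => hle _ _ hab
  · obtain ⟨x, hx, y, hy, hxy⟩ := h3 w w' hw
    exact ⟨x, hx, y, hy, hle _ _ hxy⟩

private lemma planar_mono {V : Type} {G G' : SimpleGraph V}
    (hle : ∀ a b, G.Adj a b → G'.Adj a b) (h : Planar G') : Planar G :=
  ⟨fun k => h.1 (isMinor_mono hle k), fun k => h.2 (isMinor_mono hle k)⟩

theorem hCRT : StFNB → StEFZ → StBAS → StSVF → StCRT := by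
  intro hFNB hEFZ hBAS hSVF V _ G s σ r₁ r₂ Γ₁ Γ₂ hB hσs hpl h1 h2 h1σ h2σ h12 hF1 hF2 hN1 hN2
  obtain ⟨-, hK3, -, h5, -, -, -⟩ := hBAS V G hB
  have hPn : Pn G {σ, s}ᶜ := ⟨hK3 σ s, hpl⟩
  obtain ⟨hS1, -⟩ := hSVF V G hB
  obtain ⟨-, -, -, hF4, hF5, -⟩ := hFNB V G {σ, s}ᶜ hPn
  -- `r₁ ∉ Γ₁`, `r₂ ∉ Γ₂`
  have hr1 : r₁ ∉ Γ₁ := by
    intro h
    refine hS1 s σ hσs hpl Γ₁ hF1 ?_
    rintro a ⟨ha, haσ⟩
    by_cases har : a = r₁
    · rw [har]; exact h
    · refine hN1 ⟨ha, ?_⟩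
      rintro (h' | h')
      · exact haσ h'
      · exact har h'
  have h21 : r₂ ∈ Γ₁ := by
    refine hN1 ⟨h2, ?_⟩
    rintro (h' | h')
    · exact h2σ h'
    · exact h12 (Set.mem_singleton_iff.1 h').symm
  have h12' : r₁ ∈ Γ₂ := by
    refine hN2 ⟨h1, ?_⟩
    rintro (h' | h')
    · exact h1σ h'
    · exact h12 (Set.mem_singleton_iff.1 h')
  have hne : Γ₁ ≠ Γ₂ := fun h => hr1 (h ▸ h12')
  -- the common neighbours
  obtain ⟨W, hW⟩ : ∃ W : Set V, W = {a | G.Adj s a} \ {σ, r₁, r₂} := ⟨_, rfl⟩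
  have hWm : ∀ a, a ∈ W ↔ G.Adj s a ∧ a ≠ σ ∧ a ≠ r₁ ∧ a ≠ r₂ := by
    intro a
    rw [hW]
    simp only [Set.mem_diff, Set.mem_setOf_eq, Set.mem_insert_iff, Set.mem_singleton_iff, not_or]
  have hW1 : ∀ a ∈ W, a ∈ Γ₁ := by
    intro a ha
    obtain ⟨h, hσ, hr, -⟩ := (hWm a).1 ha
    refine hN1 ⟨h, ?_⟩
    rintro (h' | h')
    · exact hσ h'
    · exact hr h'
  have hW2 : ∀ a ∈ W, a ∈ Γ₂ := by
    intro a ha
    obtain ⟨h, hσ, -, hr⟩ := (hWm a).1 ha
    refine hN2 ⟨h, ?_⟩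
    rintro (h' | h')
    · exact hσ h'
    · exact hr h'
  have hWle : W.ncard ≤ 2 := by
    by_contra hcon
    push Not at hcon
    obtain ⟨a, b, c, ha, hb, hc, hab, hac, hbc⟩ := (Set.two_lt_ncard_iff (Set.toFinite W)).1 hcon
    exact hne (hF5 Γ₁ Γ₂ hF1 hF2 a b c (hW1 a ha) (hW1 b hb) (hW1 c hc) (hW2 a ha) (hW2 b hb)
      (hW2 c hc) hab hbc hac)
  have h5s := h5 s
  have hσ : G.Adj s σ := by
    by_contra hcon
    have hsub : {a | G.Adj s a} ⊆ W ∪ {r₁, r₂} := by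
      intro a ha
      by_cases har1 : a = r₁
      · exact Or.inr (Or.inl har1)
      by_cases har2 : a = r₂
      · exact Or.inr (Or.inr har2)
      refine Or.inl ((hWm a).2 ⟨ha, ?_, har1, har2⟩)
      rintro rfl
      exact hcon ha
    have hc1 := Set.ncard_le_ncard hsub (Set.toFinite _)
    have hc2 := Set.ncard_union_le W {r₁, r₂}
    have hc3 := Set.ncard_insert_le r₁ {r₂}
    rw [Set.ncard_singleton] at hc3
    omega
  have hW2' : W.ncard = 2 := by
    have hsub : {a | G.Adj s a} ⊆ W ∪ {σ, r₁, r₂} := by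
      intro a ha
      by_cases haσ : a = σ
      · exact Or.inr (Or.inl haσ)
      by_cases har1 : a = r₁
      · exact Or.inr (Or.inr (Or.inl har1))
      by_cases har2 : a = r₂
      · exact Or.inr (Or.inr (Or.inr har2))
      exact Or.inl ((hWm a).2 ⟨ha, haσ, har1, har2⟩)
    have hc1 := Set.ncard_le_ncard hsub (Set.toFinite _)
    have hc2 := Set.ncard_union_le W {σ, r₁, r₂}
    have hc3 := Set.ncard_insert_le r₁ {r₂}
    have hc4 := Set.ncard_insert_le σ {r₁, r₂}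
    rw [Set.ncard_singleton] at hc3
    omega
  obtain ⟨p, q, hpq, hWpq⟩ := Set.ncard_eq_two.1 hW2'
  have hp : p ∈ W := by rw [hWpq]; exact Or.inl rfl
  have hq : q ∈ W := by rw [hWpq]; exact Or.inr rfl
  obtain ⟨hps, hpσ, hpr1, hpr2⟩ := (hWm p).1 hp
  obtain ⟨hqs, hqσ, hqr1, hqr2⟩ := (hWm q).1 hq
  have hadj : G.Adj p q := by
    by_contra hcon
    exact hne (hF4 Γ₁ Γ₂ hF1 hF2 p q (hW1 p hp) (hW1 q hq) (hW2 p hp) (hW2 q hq) hpq hcon)
  have hs : s ∉ ({σ, s}ᶜ : Set V) := fun h => h (Or.inr rfl)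
  have hpl2 := hEFZ V G {σ, s}ᶜ s p q r₂ r₁ Γ₁ Γ₂ hPn hs hadj hF1 hF2 hne (hW1 p hp) (hW1 q hq)
    (hW2 p hp) (hW2 q hq) h21 hpr2.symm hqr2.symm h12' hpr1.symm hqr1.symm
  have hnb : ∀ a, G.Adj s a → a = σ ∨ a = p ∨ a = q ∨ a = r₁ ∨ a = r₂ := by
    intro a ha
    by_cases haσ : a = σ
    · exact Or.inl haσ
    by_cases har1 : a = r₁
    · exact Or.inr (Or.inr (Or.inr (Or.inl har1)))
    by_cases har2 : a = r₂
    · exact Or.inr (Or.inr (Or.inr (Or.inr har2)))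
    have haW : a ∈ W := (hWm a).2 ⟨ha, haσ, har1, har2⟩
    rw [hWpq] at haW
    rcases haW with h | h
    · exact Or.inr (Or.inl h)
    · exact Or.inr (Or.inr (Or.inl h))
  refine ⟨p, q, ?_, ⟨hpσ.symm, hqσ.symm, h1σ.symm, h2σ.symm, hpq, hpr1, hpr2, hqr1, hqr2, h12⟩,
    hadj, ?_⟩
  · intro a
    constructor
    · exact hnb a
    · rintro (h | h | h | h | h)
      · rw [h]; exact hσ
      · rw [h]; exact hps
      · rw [h]; exact hqs
      · rw [h]; exact h1
      · rw [h]; exact h2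
  · refine planar_mono ?_ hpl2
    rintro a b ⟨hab, ha, hb⟩
    have haσ : a ≠ σ := ha
    have hbσ : b ≠ σ := hb
    by_cases has : a = s
    · right; left
      refine ⟨has, ?_, ?_⟩
      · have h' : G.Adj s b := by rw [← has]; exact hab.1
        rcases hnb b h' with h | h | h | h | h
        · exact absurd h hbσ
        · exact Or.inl h
        · exact Or.inr (Or.inl h)
        · exact Or.inr (Or.inr (Or.inr h))
        · exact Or.inr (Or.inr (Or.inl h))
      · intro h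
        exact G.ne_of_adj hab.1 (has.trans h.symm)
    by_cases hbs : b = s
    · right; right
      refine ⟨hbs, ?_, has⟩
      have h' : G.Adj s a := by rw [← hbs]; exact hab.1.symm
      rcases hnb a h' with h | h | h | h | h
      · exact absurd h haσ
      · exact Or.inl h
      · exact Or.inr (Or.inl h)
      · exact Or.inr (Or.inr (Or.inr h))
      · exact Or.inr (Or.inr (Or.inl h))
    · left
      refine ⟨hab, ?_, ?_⟩
      · rintro (h | h)
        · exact haσ h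
        · exact has h
      · rintro (h | h)
        · exact hbσ h
        · exact hbs h

end Pool.Agent.Helper32.MA
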