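import Pool.Agent.Helper12.MA.StA

/-!
Module FAX of project MA: elementary facts on a face.
-/

set_option autoImplicit false

namespace Pool.Agent.Helper32.MA

open Pool.Agent.Helper12.MA
open Pool.Agent.Helper51.AJ (IsMinor Planar Apex ExMinor Con Tch)
open Pool.Agent.Helper12.NK (rst Kc add cnt Pcy IsFace Cof plus)

private lemma cast_inj {m a b : ℕ} (ha : a < m) (hb : b < m) (h : (a : ZMod m) = (b : ZMod m)) :
    a = b := by
  have h1 := (ZMod.natCast_eq_natCast_iff' a b m).1 h
  rwa [Nat.mod_eq_of_lt ha, Nat.mod_eq_of_lt hb] at h1

private lemma cast_ne {m a b : ℕ} (ha : a < m) (hb : b < m) (h : a ≠ b) :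
    (a : ZMod m) ≠ (b : ZMod m) := fun h1 => h (cast_inj ha hb h1)

private lemma one_ne {m : ℕ} (hm : 3 ≤ m) : (1 : ZMod m) ≠ 0 := by
  have h := cast_ne (m := m) (a := 1) (b := 0) (by omega) (by omega) (by omega)
  push_cast at h
  exact h

private lemma two_ne {m : ℕ} (hm : 3 ≤ m) : (2 : ZMod m) ≠ 0 := by
  have h := cast_ne (m := m) (a := 2) (b := 0) (by omega) (by omega) (by omega)
  push_cast at h
  exact h

theorem hFAX : StFAX := by
  intro V _ M U F hF
  obtain ⟨m, c, ⟨hm, hinj, hU, hadj, hcon⟩, rfl⟩ := hF
  have : NeZero m := ⟨by omega⟩
  have h1 := one_ne hm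
  have h2 := two_ne hm
  -- neighbours
  have key : ∀ i j : ZMod m, M.Adj (c i) (c j) ↔ (c j = c (i - 1) ∨ c j = c (i + 1)) := by
    intro i j
    rw [hadj]
    constructor
    · rintro (h | h)
      · exact Or.inr (by rw [h])
      · exact Or.inl (by rw [h, add_sub_cancel_right])
    · rintro (h | h)
      · have := hinj h
        exact Or.inr (by rw [this, sub_add_cancel])
      · exact Or.inl (hinj h)
  have hab : ∀ i : ZMod m, c (i - 1) ≠ c (i + 1) := by
    intro i h
    have h3 := hinj h
    apply h2
    linear_combination -h3
  refine ⟨hU, ?_, hcon, ?_, ?_, ?_⟩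
  · rw [← Set.image_univ, Set.ncard_image_of_injective _ hinj, Set.ncard_univ, Nat.card_zmod]
    exact hm
  · rintro z ⟨i, rfl⟩
    refine ⟨c (i - 1), ⟨_, rfl⟩, c (i + 1), ⟨_, rfl⟩, hab i, ?_, ?_, ?_⟩
    · intro h
      have h3 := hinj h
      apply h1
      linear_combination -h3
    · intro h
      have h3 := hinj h
      apply h1
      linear_combination h3
    · rintro x ⟨j, rfl⟩
      exact key i j
  · rintro z ⟨i, rfl⟩
    refine ⟨m - 2, fun j => c (i + 1 + (j : ZMod m)), by omega, ?_, ?_, ?_, ?_⟩
    · ext x
      constructor
      · rintro ⟨⟨l, rfl⟩, hx⟩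
        have hl : l ≠ i := fun h => hx (by rw [h]; rfl)
        refine ⟨(l - i - 1).val, ?_, ?_⟩
        · have h3 : (l - i - 1).val < m := ZMod.val_lt _
          have h4 : (l - i - 1).val ≠ m - 1 := by
            intro h
            apply hl
            have h5 : ((l - i - 1).val : ZMod m) = ((m - 1 : ℕ) : ZMod m) := by rw [h]
            rw [ZMod.natCast_zmod_val, Nat.cast_sub (by omega), ZMod.natCast_self] at h5
            push_cast at h5
            linear_combination h5
          omega
        · show c l = c (i + 1 + ((l - i - 1).val : ZMod m))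
          rw [ZMod.natCast_zmod_val]
          congr 1
          ring
      · rintro ⟨j, hj, rfl⟩
        refine ⟨⟨_, rfl⟩, ?_⟩
        intro h
        have h3 := hinj (Set.mem_singleton_iff.1 h)
        have h4 : ((j + 1 : ℕ) : ZMod m) = ((0 : ℕ) : ZMod m) := by
          push_cast
          linear_combination h3
        have h5 := cast_inj (by omega) (by omega) h4
        omega
    · intro a b ha hb h
      have h3 := hinj h
      exact cast_inj (m := m) (by omega) (by omega) (add_left_cancel h3)
    · intro a b ha hb
      show M.Adj (c (i + 1 + (a : ZMod m))) (c (i + 1 + (b : ZMod m))) ↔ _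
      rw [hadj]
      constructor
      · rintro (h | h)
        · left
          have h4 : ((b : ℕ) : ZMod m) = ((a + 1 : ℕ) : ZMod m) := by
            push_cast
            linear_combination h
          exact cast_inj (by omega) (by omega) h4
        · right
          have h4 : ((a : ℕ) : ZMod m) = ((b + 1 : ℕ) : ZMod m) := by
            push_cast
            linear_combination h
          exact cast_inj (by omega) (by omega) h4
      · rintro (h | h)
        · left
          rw [h]
          push_cast
          ring
        · right
          rw [h]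
          push_cast
          ring
    · intro a ha
      show M.Adj (c i) (c (i + 1 + (a : ZMod m))) ↔ _
      rw [hadj]
      constructor
      · rintro (h | h)
        · left
          have h4 : ((a : ℕ) : ZMod m) = ((0 : ℕ) : ZMod m) := by
            push_cast
            linear_combination h
          exact cast_inj (by omega) (by omega) h4
        · right
          have h4 : ((a + 1 : ℕ) : ZMod m) = ((m - 1 : ℕ) : ZMod m) := by
            rw [Nat.cast_sub (by omega), ZMod.natCast_self]
            push_cast
            linear_combination -h
          have h5 := cast_inj (by omega) (by omega) h4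
          omega
      · rintro (h | h)
        · left
          rw [h]
          push_cast
          ring
        · right
          rw [h, Nat.cast_sub (by omega), ZMod.natCast_self]
          push_cast
          ring
  · intro C hC hne h
    apply Set.Subset.antisymm hC
    have hstep : ∀ i : ZMod m, c i ∈ C → c (i + 1) ∈ C := by
      intro i hi
      obtain ⟨b, hb, d, hd, hbd, hab', had⟩ := h _ hi
      obtain ⟨j, rfl⟩ := hC hb
      obtain ⟨l, rfl⟩ := hC hd
      rcases (key i j).1 hab' with e | e
      · rcases (key i l).1 had with e' | e'
        · exact absurd (e.trans e'.symm) hbd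
        · rwa [← e']
      · rwa [← e]
    obtain ⟨x, hx⟩ := hne
    obtain ⟨i, rfl⟩ := hC hx
    have hall : ∀ n : ℕ, c (i + (n : ZMod m)) ∈ C := by
      intro n
      induction n with
      | zero => rw [Nat.cast_zero, add_zero]; exact hx
      | succ n ih =>
        have := hstep _ ih
        rwa [Nat.cast_succ, ← add_assoc]
    rintro y ⟨j, rfl⟩
    have h3 := hall (j - i).val
    rw [ZMod.natCast_zmod_val] at h3
    rwa [show i + (j - i) = j by ring] at h3

end Pool.Agent.Helper32.MA
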